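import Pool.Agent.Helper19.HO.Defs

/-!
HO-14: the linear case of the Crofton formula with Gaussian projections.
-/

open MeasureTheory Set Metric Filter Module
open scoped NNReal Topology RealInnerProductSpace ENNReal Real ContDiff Manifold

namespace Pool.Agent.Helper19.HO

section Crofton

variable {E H ι : Type*} [NormedAddCommGroup E] [InnerProductSpace ℝ E] [NormedAddCommGroup H]
  [InnerProductSpace ℝ H] [Fintype ι] [FiniteDimensional ℝ E] [FiniteDimensional ℝ H]
  [MeasurableSpace E] [BorelSpace E]

namespace P14

omit [FiniteDimensional ℝ E] [FiniteDimensional ℝ H] [MeasurableSpace E] [BorelSpace E] in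
theorem act_apply (b : OrthonormalBasis ι ℝ H) (p : PiLp 2 (fun _ : ι => E)) (h : H) :
    act b p h = ∑ j, ⟪b j, h⟫ • p j := by
  simp [act]

omit [FiniteDimensional ℝ E] [FiniteDimensional ℝ H] [MeasurableSpace E] [BorelSpace E] in
theorem continuous_act (b : OrthonormalBasis ι ℝ H) :
    Continuous (fun p : PiLp 2 (fun _ : ι => E) => act b p) := by
  unfold act
  refine continuous_finsetSum _ fun j _ => ?_
  exact ((ContinuousLinearMap.smulRightL ℝ H E (innerSL ℝ (b j))).continuous).comp
    (PiLp.continuous_apply 2 _ j)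

omit [FiniteDimensional ℝ H] [MeasurableSpace E] [BorelSpace E] in
theorem continuous_gw : Continuous (gw : PiLp 2 (fun _ : ι => E) → ℝ≥0∞) := by
  unfold gw
  exact ENNReal.continuous_ofReal.comp (by fun_prop)

omit [FiniteDimensional ℝ H] in
theorem lintegral_ker_le (b : OrthonormalBasis ι ℝ H) (Q₀ : E →L[ℝ] H)
    (p : PiLp 2 (fun _ : ι => E)) :
    ∫⁻ y, ker b p Q₀ y ≤ volume (ball (0 : E) 1) := by
  classical
  set A : E →L[ℝ] E := act b p ∘L Q₀ with hA
  have hset : MeasurableSet (A ⁻¹' ball (0 : E) 1) := A.continuous.measurable isOpen_ball.measurableSet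
  have hk : ∀ y, ker b p Q₀ y = (A ⁻¹' ball (0 : E) 1).indicator (fun _ => ENNReal.ofReal |A.det|) y := by
    intro y
    unfold ker
    by_cases h : ‖act b p (Q₀ y)‖ < 1
    · rw [if_pos h, indicator_of_mem]
      rw [mem_preimage, mem_ball_zero_iff]
      exact h
    · rw [if_neg h, indicator_of_notMem]
      rw [mem_preimage, mem_ball_zero_iff]
      exact h
  simp_rw [hk]
  rw [lintegral_indicator_const hset]
  by_cases hd : A.det = 0
  · simp [hd]
  · rw [Measure.addHaar_preimage_continuousLinearMap _ hd, ← mul_assoc, ← ENNReal.ofReal_mul (abs_nonneg _),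
      ← abs_mul, mul_inv_cancel₀ hd, abs_one, ENNReal.ofReal_one, one_mul]

end P14

open P14

theorem lintegral_Psi_isometry_le (b : OrthonormalBasis ι ℝ H) (Q₀ : E →ₗᵢ[ℝ] H) :
    ∫⁻ y, Psi b Q₀.toContinuousLinearMap y
      ≤ (∫⁻ p : PiLp 2 (fun _ : ι => E), gw p) * volume (ball (0 : E) 1) := by
  classical
  unfold Psi
  have hm : Measurable (Function.uncurry fun (y : E) (p : PiLp 2 (fun _ : ι => E)) =>
      gw p * ker b p Q₀.toContinuousLinearMap y) := by
    refine (continuous_gw.measurable.comp measurable_snd).mul ?_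
    unfold ker
    refine Measurable.ite ?_ ?_ measurable_const
    · refine IsOpen.measurableSet ?_
      refine isOpen_lt (Continuous.norm ?_) continuous_const
      exact ((continuous_act b).comp continuous_snd).clm_apply
        (Q₀.toContinuousLinearMap.continuous.comp continuous_fst)
    · refine (ENNReal.measurable_ofReal.comp ?_)
      refine Continuous.measurable ?_
      refine Continuous.abs ?_
      refine ContinuousLinearMap.continuous_det.comp ?_
      exact ((continuous_act b).comp continuous_snd).clm_comp continuous_const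
  rw [lintegral_lintegral_swap hm.aemeasurable]
  calc ∫⁻ p : PiLp 2 (fun _ : ι => E), ∫⁻ y, gw p * ker b p Q₀.toContinuousLinearMap y
      ≤ ∫⁻ p : PiLp 2 (fun _ : ι => E), gw p * volume (ball (0 : E) 1) := by
        refine lintegral_mono fun p => ?_
        have hmp : Measurable fun y => ker b p Q₀.toContinuousLinearMap y := by
          unfold ker
          refine Measurable.ite ?_ measurable_const measurable_const
          refine IsOpen.measurableSet ?_
          exact isOpen_lt (Continuous.norm ((act b p).continuous.comp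
            Q₀.toContinuousLinearMap.continuous)) continuous_const
        rw [lintegral_const_mul _ hmp]
        exact mul_le_mul_right (lintegral_ker_le b Q₀.toContinuousLinearMap p) _
    _ = _ := by
        rw [lintegral_mul_const _ continuous_gw.measurable]

omit [FiniteDimensional ℝ H] in
theorem lintegral_gw_pos : 0 < ∫⁻ p : PiLp 2 (fun _ : ι => E), gw p := by
  rw [lintegral_pos_iff_support continuous_gw.measurable]
  have : Function.support (gw : PiLp 2 (fun _ : ι => E) → ℝ≥0∞) = univ := by
    ext p
    simp [gw, Real.exp_pos]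
  rw [this]
  exact isOpen_univ.measure_pos _ univ_nonempty

omit [FiniteDimensional ℝ H] in
theorem lintegral_gw_lt_top : ∫⁻ p : PiLp 2 (fun _ : ι => E), gw p < ⊤ := by
  have h := GaussianFourier.integrable_cexp_neg_mul_sq_norm_add (V := PiLp 2 (fun _ : ι => E))
    (b := (1 / 2 : ℂ)) (by norm_num) 0 0
  have h2 : ∀ p : PiLp 2 (fun _ : ι => E), gw p = ‖Complex.exp (-(1 / 2 : ℂ) * ‖p‖ ^ 2 + 0 * ⟪(0 : PiLp 2 (fun _ : ι => E)), p⟫)‖ₑ := by
    intro p
    rw [← ofReal_norm, Complex.norm_exp]
    unfold gw
    congr 2
    simp [← Complex.ofReal_pow]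
    ring
  simp_rw [h2]
  exact h.2

end Crofton

end Pool.Agent.Helper19.HO
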